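import Mathlib

set_option autoImplicit false
open Set Metric MeasureTheory Filter Topology
open scoped ENNReal

namespace Pool.Agent.H.MP_1dbcb3_an

theorem seq : ∃ N H q : ℕ → ℕ, N 0 = 1 ∧ H 0 = 0 ∧ (∀ n, N (n + 1) = N n * q n) ∧
    (∀ n, H (n + 1) = H n + 2 * ((H n + 1) * N (n + 1))) ∧
    ∀ n, q n = (2 ^ (n + 2) * (3 * (H n + 1) * N n)) ^ (n + 1) := by
  let Q : ℕ → ℕ × ℕ → ℕ := fun n p => (2 ^ (n + 2) * (3 * (p.2 + 1) * p.1)) ^ (n + 1)
  let st : ℕ → ℕ × ℕ := fun n => Nat.rec (1, 0)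
    (fun n p => (p.1 * Q n p, p.2 + 2 * ((p.2 + 1) * (p.1 * Q n p)))) n
  exact ⟨fun n => (st n).1, fun n => (st n).2, fun n => Q n (st n), rfl, rfl, fun _ => rfl,
    fun _ => rfl, fun _ => rfl⟩

theorem fl_step {M q : ℕ} (hq : 0 < q) (x : ℝ) : ⌊(M : ℝ) * x⌋ = ⌊((M * q : ℕ) : ℝ) * x⌋ / q := by
  rw [← Int.floor_div_natCast]
  congr 1
  have : (q : ℝ) ≠ 0 := by positivity
  push_cast; field_simp

theorem sep {M q : ℕ} (hq : 0 < q) {x y : ℝ} (hxy : x < y) (h : ⌊(M : ℝ) * x⌋ ≠ ⌊(M : ℝ) * y⌋)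
    (hy : ¬ (q : ℤ) ∣ ⌊((M * q : ℕ) : ℝ) * y⌋) : 1 ≤ ((M * q : ℕ) : ℝ) * (y - x) := by
  have h1 : ⌊(M : ℝ) * x⌋ < ⌊(M : ℝ) * y⌋ := lt_of_le_of_ne (Int.floor_mono (by gcongr)) h
  rw [fl_step hq, fl_step hq y] at h1
  have a1 := Int.lt_floor_add_one (((M * q : ℕ) : ℝ) * x)
  have a2 := Int.floor_le (((M * q : ℕ) : ℝ) * y)
  set a := ⌊((M * q : ℕ) : ℝ) * x⌋
  set b := ⌊((M * q : ℕ) : ℝ) * y⌋
  have q0 : (0 : ℤ) < q := by exact_mod_cast hq
  have e1 := Int.mul_ediv_add_emod a q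
  have e2 := Int.mul_ediv_add_emod b q
  have e3 := Int.emod_lt_of_pos a q0
  have e4 : 0 < b % q := lt_of_le_of_ne (Int.emod_nonneg b q0.ne')
    fun e => hy (Int.dvd_of_emod_eq_zero e.symm)
  have e5 : (q : ℤ) * (a / q + 1) ≤ q * (b / q) := by gcongr; exact h1
  have e6 : a + 2 ≤ b := by linarith
  have e7 : (a : ℝ) + 2 ≤ b := by exact_mod_cast e6
  linarith

theorem meas_le {M q : ℕ} (hM : 0 < M) (hq : 0 < q) :
    volume ({x : ℝ | (q : ℤ) ∣ ⌊((M * q : ℕ) : ℝ) * x⌋} ∩ Ioo 0 1) ≤ ENNReal.ofReal (1 / q) := by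
  have M0 : (0 : ℝ) < M := by positivity
  have q0 : (0 : ℝ) < q := by positivity
  have h1 : {x : ℝ | (q : ℤ) ∣ ⌊((M * q : ℕ) : ℝ) * x⌋} ∩ Ioo 0 1 ⊆
      ⋃ i ∈ Finset.range M, Ico ((i : ℝ) / M) (i / M + 1 / (M * q)) := by
    rintro x ⟨⟨k, hk⟩, h0, h1⟩
    rw [Int.floor_eq_iff] at hk
    push_cast at hk
    have k0 : (-1 : ℝ) < k := by
      by_contra! g
      have : (1 : ℝ) ≤ q := by exact_mod_cast hq
      nlinarith [hk.2, mul_pos (mul_pos M0 q0) h0]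
    have k1 : (k : ℝ) < M := by
      by_contra! g
      nlinarith [hk.1, mul_pos (mul_pos M0 q0) (sub_pos.2 h1)]
    have k2 : 0 ≤ k := by have : (-1 : ℤ) < k := by exact_mod_cast k0
                          omega
    lift k to ℕ using k2
    refine mem_iUnion₂.2 ⟨k, Finset.mem_range.2 (by exact_mod_cast k1), ?_, ?_⟩
    · rw [div_le_iff₀ M0]
      push_cast at hk
      nlinarith [hk.1]
    · rw [show (k : ℝ) / M + 1 / (M * q) = (q * k + 1) / (M * q) by field_simp,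
        lt_div_iff₀ (by positivity)]
      push_cast at hk
      linarith [hk.2]
  refine (measure_mono h1).trans ((measure_biUnion_finset_le _ _).trans ?_)
  simp only [Real.volume_Ico, add_sub_cancel_left, Finset.sum_const, Finset.card_range, nsmul_eq_mul]
  rw [← ENNReal.ofReal_natCast, ← ENNReal.ofReal_mul M0.le]
  exact ENNReal.ofReal_le_ofReal (le_of_eq (by field_simp))

theorem omega_ex (s : ℕ → ℝ) (s1 : ∀ n, 1 ≤ s n) (s2 : ∀ n, 2 * s n ≤ s (n + 1)) :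
    ∃ ω : ℝ → ℝ, Continuous ω ∧ ω 0 = 0 ∧ (∀ μ, 0 < μ → 0 < ω μ) ∧
      ∫⁻ μ in Ioi (1 : ℝ), ENNReal.ofReal (ω μ / μ ^ 2) = ∞ ∧
      ∀ μ, 0 < μ → (∀ n, μ ≤ s n ∨ 2 * s n ≤ μ) → ω μ ≤ 1 / μ := by
  let S : Set ℝ := {μ | ∀ n, μ ≤ s n ∨ 2 * s n ≤ μ}
  have S0 : (0 : ℝ) ∈ S := fun n => Or.inl (by linarith [s1 n])
  refine ⟨fun μ => μ / (1 + μ ^ 2) + infDist μ S, (Continuous.div continuous_id (by fun_prop)
    fun μ => by positivity).add (continuous_infDist_pt S), by simp [infDist_zero_of_mem S0],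
    fun μ h => add_pos_of_pos_of_nonneg (by positivity) infDist_nonneg, ?_, fun μ h hS => ?_⟩
  · have sm : StrictMono s := strictMono_nat_of_lt_succ fun n => by linarith [s1 n, s2 n]
    let W : ℕ → Set ℝ := fun n => Ioo (5 / 4 * s n) (7 / 4 * s n)
    have Wd' : ∀ m n, m < n → Disjoint (W m) (W n) := fun m n h => by
      refine disjoint_left.2 fun x h1 h2 => ?_
      have := sm.monotone (Nat.succ_le_of_lt h)
      linarith [h1.2, h2.1, s2 m, s1 m]
    have Wd : Pairwise (Function.onFun Disjoint W) := fun m n h =>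
      (lt_or_gt_of_ne h).elim (Wd' m n) fun h => (Wd' n m h).symm
    have Ws : ⋃ n, W n ⊆ Ioi 1 := iUnion_subset fun n x hx => by
      have := hx.1; simp only [mem_Ioi]; linarith [s1 n]
    refine top_unique (le_trans ?_ (lintegral_mono_set Ws))
    rw [lintegral_iUnion (fun n => measurableSet_Ioo) Wd,
      ← ENNReal.tsum_const_eq_top_of_ne_zero (α := ℕ) (c := ENNReal.ofReal (1 / 32)) (by simp)]
    refine ENNReal.tsum_le_tsum fun n => ?_
    have p := lt_of_lt_of_le one_pos (s1 n)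
    have : ∀ μ ∈ W n, ENNReal.ofReal (1 / (16 * s n)) ≤
        ENNReal.ofReal ((μ / (1 + μ ^ 2) + infDist μ S) / μ ^ 2) := fun μ hμ => by
      have m0 : 0 < μ := by linarith [hμ.1]
      have a1 : s n / 4 ≤ infDist μ S := (le_infDist ⟨0, S0⟩).2 fun y hy => by
        rw [Real.dist_eq, le_abs]
        rcases hy n with e | e
        · left; linarith [hμ.1]
        · right; linarith [hμ.2]
      have a2 : 0 ≤ μ / (1 + μ ^ 2) := by positivity
      refine ENNReal.ofReal_le_ofReal ?_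
      rw [div_le_div_iff₀ (by positivity) (by positivity)]
      nlinarith [hμ.2]
    refine le_trans ?_ (setLIntegral_mono' measurableSet_Ioo this)
    rw [setLIntegral_const, Real.volume_Ioo, ← ENNReal.ofReal_mul (by positivity)]
    exact ENNReal.ofReal_le_ofReal (le_of_eq (by field_simp; ring))
  · simp only [infDist_zero_of_mem (show μ ∈ S from hS), add_zero]
    rw [div_le_div_iff₀ (by positivity) h]
    nlinarith

end Pool.Agent.H.MP_1dbcb3_an
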